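import Pool.Agent.Lib.MP_d71b33_lc_h91.RA
import Pool.Agent.Lib.MP_d71b33_lc_h91.TR
import Pool.Agent.Lib.MP_d71b33_lc_h28.GR
import Pool.Agent.Lib.MP_d71b33_lc_h46.NE

/-!
# The abstract conversion (MP_d71b33_lc, deterministic part, task CVA)
-/

namespace Pool.Agent.Bfly

variable {n : ℕ}

namespace CVA

theorem agOut_refl (p q : ℕ) (x : Rw n) : AgOut p q x x := fun _ _ => rfl

theorem bit_eq_of_agOut {p q : ℕ} {x y : Rw n} (h : AgOut p q x y) {j : ℕ} (hj : j < p ∨ q ≤ j) :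
    bit x j = bit y j := by
  unfold bit
  split_ifs with hn
  · exact h ⟨j, hn⟩ hj
  · rfl

theorem eq_of_agOut {p q : ℕ} {x y w : Rw n} (hx : AgOut p q x w) (hy : AgOut p q y w)
    (h : ∀ j : Fin n, p ≤ j.val → j.val < q → x j = y j) : x = y := by
  funext j
  by_cases hj : p ≤ j.val ∧ j.val < q
  · exact h j hj.1 hj.2
  · have hj' : j.val < p ∨ q ≤ j.val := by omega
    rw [hx j hj', hy j hj']

end CVA

namespace Sys

variable (S : Sys n)

/-- a run of free sites inside `P` is a chain -/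
theorem chain_run (P : Set (Node n)) (X : ℕ → Rw n) (p : ℕ) : ∀ q, p ≤ q → q ≤ S.m →
    (∀ k, p ≤ k → k ≤ q → S.free (X k) k ∧ nd (X k) (S.lev k) ∈ P) →
    (∀ k, p ≤ k → k < q → AgOut (S.lev k) (S.lev (k + 1)) (X k) (X (k + 1))) →
    Chain (butterfly n) S.F P (2 * S.g) (q - p) (nd (X p) (S.lev p)) (nd (X q) (S.lev q)) := by
  intro q
  induction q with
  | zero =>
    intro hpq hq h1 h2
    obtain rfl : p = 0 := by omega
    simpa using Chain.refl (h1 0 le_rfl le_rfl).2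
  | succ q ih =>
    intro hpq hq h1 h2
    rcases Nat.lt_or_ge q p with hlt | hge
    · obtain rfl : p = q + 1 := by omega
      simpa using Chain.refl (h1 (q + 1) le_rfl le_rfl).2
    · have hc := ih hge (by omega) (fun k hk hk' => h1 k hk (by omega))
        (fun k hk hk' => h2 k hk (by omega))
      have := Chain.step hc (S.near_cross (by omega) (h1 q hge (by omega)).1
        (h1 (q + 1) hpq le_rfl).1 (h2 q hge (by omega))) (h1 (q + 1) hpq le_rfl).2
      rwa [show q + 1 - p = q - p + 1 by omega]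

/-- one anchor `(x,k)`: the run down to `q` -/
theorem conv_down {Y : Core n} (P : Set (Node n)) (w x : Rw n) (p q k : ℕ)
    (hq : q ≤ S.m) (hpk : p ≤ k) (hkq : k + S.nb Y < q)
    (hx : AgOut (S.lev p) (S.lev k) x w)
    (hfx : S.free x k) (hxP : nd x (S.lev k) ∈ P)
    (hAx : ∀ z t, k < t → t ≤ q → AgOut (S.lev k) (S.lev t) z x → S.sgD k t z → S.free z t →
      nd z (S.lev t) ∈ P) :
    ∃ z, S.free z q ∧ AgOut (S.lev p) (S.lev q) z w ∧
      (∀ j, j < S.nb Y → bit z (S.rb (q - S.nb Y + j)) = bit w (S.lev (S.zs Y) + j)) ∧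
      Chain (butterfly n) S.F P (2 * S.g) (q - k) (nd x (S.lev k)) (nd z (S.lev q)) := by
  obtain ⟨X, X', hX0, -, h1, h2, h3⟩ := S.run_down x x k q (by omega) hq
    (fun d => bit w (S.lev (S.zs Y) + (d - (q - S.nb Y)))) (fun d => decide (d = k))
  have hfree : ∀ t, k ≤ t → t ≤ q → S.free (X t) t := by
    intro t ht ht' Q hQ hm
    refine hfx Q hQ ?_
    have := (h3 k t le_rfl ht ht' Q hQ).1 hm
    rwa [hX0] at this
  refine ⟨X q, hfree q (by omega) le_rfl, ?_, ?_, ?_⟩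
  · have ha := (h1 q (by omega) le_rfl).1
    have hlev : S.lev k ≤ S.lev q := S.lev_mono (by omega) hq
    have hlev' : S.lev p ≤ S.lev k := S.lev_mono hpk (by omega)
    exact (AgOut.mono hlev' le_rfl ha).trans (AgOut.mono le_rfl hlev hx)
  · intro j hj
    have hb := ((h1 q (by omega) le_rfl).2.2.2 (q - S.nb Y + j) (by omega) (by omega)).1
    rw [hb]
    congr 2
    omega
  · have hc := S.chain_run P X k q (by omega) hq (fun t ht ht' => ⟨hfree t ht ht', ?_⟩)
      (fun t ht ht' => (h2 t ht ht').1)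
    · rwa [hX0] at hc
    · rcases Nat.eq_or_lt_of_le ht with rfl | hlt
      · rw [hX0]
        exact hxP
      · refine hAx (X t) t hlt ht' (h1 t ht ht').1 ?_ (hfree t ht ht')
        intro d hd hd'
        exact ((h1 t ht ht').2.2.2 d hd hd').2.1

/-- The abstract conversion: two anchors `(x,k)`, `(y,l)` for the row `w` (dirty only between `p` and
`k` resp. `l`), turning point `q`, record of the zone of `Y` just above `q`. -/
theorem conv_abs {Y : Core n} (hY : Y ∈ S.cores) (P : Set (Node n)) (w x y : Rw n) (p q k l : ℕ)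
    (hq : q ≤ S.m) (hpk : p ≤ k) (hpl : p ≤ l) (hkq : k + S.nb Y < q) (hlq : l + S.nb Y < q)
    (hx : AgOut (S.lev p) (S.lev k) x w) (hy : AgOut (S.lev p) (S.lev l) y w)
    (hfx : S.free x k) (hfy : S.free y l) (hxP : nd x (S.lev k) ∈ P) (hyP : nd y (S.lev l) ∈ P)
    (hAx : ∀ z t, k < t → t ≤ q → AgOut (S.lev k) (S.lev t) z x → S.sgD k t z → S.free z t →
      nd z (S.lev t) ∈ P)
    (hAy : ∀ z t, l < t → t ≤ q → AgOut (S.lev l) (S.lev t) z y → S.sgD l t z → S.free z t →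
      nd z (S.lev t) ∈ P)
    (hB : ∀ z t, p ≤ t → t ≤ q → S.InB Y p q t w z → S.free z t → nd z (S.lev t) ∈ P) :
    ∃ r ≤ 4 * (q - p), Chain (butterfly n) S.F P (2 * S.g) r (nd x (S.lev k)) (nd y (S.lev l)) := by
  obtain ⟨x', hfx', hx'w, hx'r, hcx⟩ := S.conv_down P w x p q k hq hpk hkq hx hfx hxP hAx
  obtain ⟨y', hfy', hy'w, hy'r, hcy⟩ := S.conv_down P w y p q l hq hpl hlq hy hfy hyP hAy
  obtain ⟨X, Z, hX0, hZ0, h1, h2, h3⟩ := S.run_up x' y' p q (by omega) hq
    (fun d => bit w (S.lev (S.zs Y) + (d - (q - S.nb Y)))) (fun d => decide (d + 1 = q))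
  have hfX : ∀ t, p ≤ t → t ≤ q → S.free (X t) t := by
    intro t ht ht' Q hQ hm
    refine hfx' Q hQ ?_
    have := (h3 t q ht ht' le_rfl Q hQ).1 hm
    rwa [hX0] at this
  have hfZ : ∀ t, p ≤ t → t ≤ q → S.free (Z t) t := by
    intro t ht ht' Q hQ hm
    refine hfy' Q hQ ?_
    have := (h3 t q ht ht' le_rfl Q hQ).2 hm
    rwa [hZ0] at this
  have hBX : ∀ t, p ≤ t → t ≤ q → S.InB Y p q t w (X t) ∧ S.InB Y p q t w (Z t) := by
    intro t ht ht'
    obtain ⟨g1, g2, -, g4⟩ := h1 t ht ht'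
    have hlev : S.lev p ≤ S.lev t := S.lev_mono ht (by omega)
    have hrec : ∀ (z z' : Rw n), AgOut (S.lev t) (S.lev q) z z' →
        (∀ j, j < S.nb Y → bit z' (S.rb (q - S.nb Y + j)) = bit w (S.lev (S.zs Y) + j)) →
        (∀ d, t ≤ d → d < q → bit z (S.rb d) = bit w (S.lev (S.zs Y) + (d - (q - S.nb Y)))) →
        ∀ j, j < S.nb Y → bit z (S.rb (q - S.nb Y + j)) = bit w (S.lev (S.zs Y) + j) := by
      intro z z' hz hz' hd j hj
      rcases Nat.lt_or_ge (q - S.nb Y + j) t with hlt | hge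
      · rw [← hz' j hj]
        refine CVA.bit_eq_of_agOut hz (Or.inl ?_)
        have e1 := S.rb_hi (q - S.nb Y + j) (by omega)
        have e2 : S.lev (q - S.nb Y + j + 1) ≤ S.lev t := S.lev_mono (by omega) (by omega)
        omega
      · rw [hd _ hge (by omega)]
        congr 2
        omega
    refine ⟨⟨?_, ?_, ?_⟩, ?_, ?_, ?_⟩
    · rw [← hX0] at hx'w
      rw [← hX0] at g1
      exact (AgOut.mono hlev le_rfl g1).trans hx'w
    · intro d hd hd'
      exact (g4 d hd hd').2.1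
    · exact hrec (X t) x' g1 hx'r (fun d hd hd' => (g4 d hd hd').1)
    · rw [← hZ0] at hy'w
      rw [← hZ0] at g2
      exact (AgOut.mono hlev le_rfl g2).trans hy'w
    · intro d hd hd'
      exact (g4 d hd hd').2.2.2
    · exact hrec (Z t) y' g2 hy'r (fun d hd hd' => (g4 d hd hd').2.2.1)
  have hcX := S.chain_run P X p q (by omega) hq
    (fun t ht ht' => ⟨hfX t ht ht', hB _ t ht ht' (hBX t ht ht').1 (hfX t ht ht')⟩)
    (fun t ht ht' => (h2 t ht ht').1)
  have hcZ := S.chain_run P Z p q (by omega) hq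
    (fun t ht ht' => ⟨hfZ t ht ht', hB _ t ht ht' (hBX t ht ht').2 (hfZ t ht ht')⟩)
    (fun t ht ht' => (h2 t ht ht').2)
  have hXZ : X p = Z p := by
    refine CVA.eq_of_agOut (hBX p le_rfl (by omega)).1.1 (hBX p le_rfl (by omega)).2.1 ?_
    exact (h1 p le_rfl (by omega)).2.2.1
  rw [hX0] at hcX
  rw [hZ0, ← hXZ] at hcZ
  exact ⟨_, by omega, ((hcx.trans hcX.symm).trans hcZ).trans hcy.symm⟩

end Sys

end Pool.Agent.Bfly
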