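import Pool.Agent.Lib.MP_d71b33_lc_h73.CVA

/-!
# The four conversions with turning point below (MP_d71b33_lc, deterministic part, task CVD)
-/

namespace Pool.Agent.Bfly

variable {n : ℕ}

namespace Sys

variable (S : Sys n)

/-- offset of the turning point of conversions to the zone of `Y` -/
def CVc (Y : Core n) : ℕ := if S.ty Y then cbg S.g else csm S.g

theorem CVc_eq (Y : Core n) : S.CVc Y = csm S.g ∨ S.CVc Y = cbg S.g := by
  unfold Sys.CVc
  split_ifs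
  · exact Or.inr rfl
  · exact Or.inl rfl

theorem CVc_le (Y : Core n) : S.CVc Y * S.h Y.i ≤ cbg S.g * S.h Y.i := by
  refine Nat.mul_le_mul_right _ ?_
  have : csm S.g ≤ cbg S.g := by unfold cbg; omega
  rcases S.CVc_eq Y with h | h <;> omega

theorem nb_mid {Y : Core n} (hY : Y ∈ S.cores) (h : S.ty Y = false) (hYe : Y.e ≠ S.m) :
    S.nb Y + 8 * S.h Y.i ≤ csm S.g * S.h Y.i := by
  have h1 := S.nb_le_mid hY (S.ne_zero_of_false hY h) hYe
  have h2 := S.csm_mul Y.i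
  omega

/-- room for the turning point at a lower wall -/
theorem turn {Y : Core n} (hY : Y ∈ S.cores) (hYe : Y.e ≠ S.m) {β : ℕ}
    (hβ : β = Y.e ∨ β = S.ze Y) :
    β + S.CVc Y * S.h Y.i ≤ S.m ∧ S.ib Y + S.nb Y < β + S.CVc Y * S.h Y.i ∧
      β + S.h Y.i + S.nb Y < β + S.CVc Y * S.h Y.i := by
  have h1 := S.ze_eq hY hYe
  have h2 := S.nb_le hY
  have h3 := S.cbg_mul Y.i
  have h4 := S.csm_lt_tau Y.i
  have h5 := S.four_le_h Y.i
  rcases Bool.eq_false_or_eq_true (S.ty Y) with ht | ht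
  · have e1 : S.CVc Y = cbg S.g := by unfold Sys.CVc; rw [if_pos ht]
    have e2 := S.ty_true_h hY ht
    rw [Nat.add_mul] at e2
    have e3 := S.ib_true ht
    rw [e1]
    omega
  · have e1 : S.CVc Y = csm S.g := by unfold Sys.CVc; rw [if_neg (by simp [ht])]
    have e3 := S.ib_false ht
    have e4 := S.nb_mid hY ht hYe
    rw [e1]
    omega

theorem it_far {X : Core n} (hX : X ∈ S.cores) :
    S.ib X ≤ S.it X + cbg S.g * S.h X.i ∧
      S.ib X ≤ S.it X + (csm S.g + 12 + tau S.g) * S.h X.i := by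
  have h1 := (S.zone_arith hX).2.2.2.2.2.2.2.2.2.1
  refine ⟨?_, h1⟩
  have h3 := S.cbg_mul X.i
  rw [Nat.add_mul, Nat.add_mul] at h1
  have h5 := S.four_le_h X.i
  omega

theorem PR_of {X : Core n} (hX : X ∈ S.cores) {u : Node n} (huX : S.inZ X u.1)
    (hsp : S.special X u) {x : Rw n} (hx : S.InR X u.1 x) : nd x (S.lev (S.ib X)) ∈ S.PR u := by
  have h1 := S.zone_arith hX
  have h2 := S.core_lt X hX
  refine ⟨X, hX, huX, S.ib X, by omega, le_rfl, S.nd_lev x (by omega), ?_, Or.inl hsp⟩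
  rwa [nd_fst]

theorem PAe_of {X : Core n} (hX : X ∈ S.cores) {u : Node n} (huX : S.inZ X u.1)
    (hsp : S.special X u) {x : Rw n} (hx : S.InR X u.1 x) {z : Rw n} {t : ℕ} (ht : S.ib X < t)
    (ht' : t ≤ S.ib X + cbg S.g * S.h X.i) (htm : t ≤ S.m)
    (hz : AgOut (S.lev (S.ib X)) (S.lev t) z x) (hs : S.sgD (S.ib X) t z) :
    nd z (S.lev t) ∈ S.PAe u := by
  have h1 := S.zone_arith hX
  have h2 := S.core_lt X hX
  refine ⟨X, hX, huX, hsp, t, ht, ht', htm, S.nd_lev z htm, ?_, ?_, ?_⟩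
  · rw [nd_fst]
    exact (AgOut.mono (S.lev_mono (by omega) (by omega)) le_rfl hz).trans
      (AgOut.mono le_rfl (S.lev_mono (by omega) htm) hx.1)
  · rw [nd_fst]
    exact hs
  · intro j hj
    rw [nd_fst, ← hx.2.2 j hj]
    exact hz.bit (S.rb_out (by omega) (Or.inl (by omega)) (by omega) (by omega))

theorem PAs_of {X Y : Core n} (hX : X ∈ S.cores) (hY : Y ∈ S.cores) (hXY : X.i < Y.i)
    {u : Node n} (huX : S.inZ X u.1) (hsp : S.special X u) {β : ℕ} (hβ : S.lowW Y β u.1)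
    (hul : u.2.val = S.lev β) (hβX : S.it X ≤ β) (hβX' : β ≤ S.ib X)
    {x : Rw n} (hx : S.InR X u.1 x) {z : Rw n} {t : ℕ} (ht : S.ib X < t)
    (ht' : t ≤ β + cbg S.g * S.h Y.i) (htm : t ≤ S.m)
    (hz : AgOut (S.lev (S.ib X)) (S.lev t) z x) (hs : S.sgD (S.ib X) t z) :
    nd z (S.lev t) ∈ S.PAs u := by
  have h1 := S.zone_arith hX
  have h2 := S.core_lt X hX
  refine ⟨X, hX, Y, hY, hXY, huX, hsp, β, hβ, hul, hβX, hβX', t, ht, ht', htm, S.nd_lev z htm,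
    ?_, ?_, ?_⟩
  · rw [nd_fst]
    exact (AgOut.mono (S.lev_mono (by omega) (by omega)) le_rfl hz).trans
      (AgOut.mono le_rfl (S.lev_mono (by omega) htm) hx.1)
  · rw [nd_fst]
    exact hs
  · intro j hj
    rw [nd_fst, ← hx.2.2 j hj]
    exact hz.bit (S.rb_out (by omega) (Or.inl (by omega)) (by omega) (by omega))

theorem PAh_of {Y : Core n} (hY : Y ∈ S.cores) {u : Node n} {β : ℕ} (hβ : S.lowW Y β u.1)
    (hul : u.2.val = S.lev β) {p t : ℕ} (hp : p = β ∨ p = β + 1) (hpt : p ≤ t) (hβt : β < t)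
    (ht' : t ≤ β + cbg S.g * S.h Y.i) (htm : t ≤ S.m) {z : Rw n}
    (hz : AgOut (S.lev β) (S.lev t) z u.1) (hs : S.sgD p t z) :
    nd z (S.lev t) ∈ S.PAh u := by
  refine ⟨Y, hY, β, hβ, hul, p, t, hp, hpt, hβt, ht', htm, S.nd_lev z htm, ?_, ?_⟩
  · rw [nd_fst]
    exact hz
  · rw [nd_fst]
    exact hs

theorem PB_of {Y : Core n} (hY : Y ∈ S.cores) {u : Node n} {β c : ℕ}
    (hc : c = csm S.g ∨ c = cbg S.g)
    (hβ : (β = Y.s ∨ β = S.zs Y) ∧ Y.s ≠ 0 ∨ (β = Y.e ∨ β = S.ze Y) ∧ Y.e ≠ S.m)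
    (huY : S.inZ Y u.1) (hul : u.2.val = S.lev β) (hm : β + c * S.h Y.i ≤ S.m) {z : Rw n} {t : ℕ}
    (ht : β - cbg S.g * S.h Y.i ≤ t) (ht' : t ≤ β + c * S.h Y.i)
    (hz : S.InB Y (β - cbg S.g * S.h Y.i) (β + c * S.h Y.i) t u.1 z) :
    nd z (S.lev t) ∈ S.PB u := by
  refine ⟨Y, hY, β, c, hc, hβ, huY, hul, hm, t, ht, ht', S.nd_lev z (by omega), ?_⟩
  rw [nd_fst]
  exact hz

theorem special_of_grid {X : Core n} {i β : ℕ} (hi : X.i ≤ i) (hg : S.grid i β)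
    {u : Node n} (hul : u.2.val = S.lev β) (h1 : S.it X ≤ β) (h2 : β ≤ S.ib X) : S.special X u :=
  ⟨β, h1, h2, S.dvd_of_grid hi hg, hul⟩

theorem memN_inZ {Y : Core n} (hY : Y ∈ S.cores) {u : Node n} (h : S.memN Y u) :
    S.inZ Y u.1 := by
  have h1 := S.zone_arith hY
  have h2 := S.core_lt Y hY
  exact AgOut.mono (S.lev_mono (by omega) (by omega)) (S.lev_mono (by omega) (by omega)) h.2.2

theorem len_bound {a b c : ℕ} (hc : c ≤ b) (r : ℕ) (hr : r ≤ 4 * (a + c - (a - b))) :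
    r ≤ 8 * b := by
  omega

/-- import from a home, lower wall of the zone -/
theorem convD_home_import {Y : Core n} (hY : Y ∈ S.cores) (hYe : Y.e ≠ S.m) {u : Node n}
    (hu : S.freeN u) (huZ : S.inZ Y u.1) (hul : u.2.val = S.lev (S.ze Y)) {y : Rw n}
    (hy : S.InR Y u.1 y) (hfy : S.free y (S.ib Y)) :
    ∃ r ≤ 8 * cbg S.g * S.h Y.i, Chain (butterfly n) S.F ({u} ∪ S.PR u ∪ S.PD u) (2 * S.g) r
      u (nd y (S.lev (S.ib Y))) := by
  have hz := S.zone_arith hY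
  have hlt := S.core_lt Y hY
  obtain ⟨t1, t2, t3⟩ := S.turn hY hYe (Or.inr rfl : S.ze Y = Y.e ∨ S.ze Y = S.ze Y)
  have hc := S.CVc_le Y
  obtain ⟨f1, -⟩ := S.it_far hY
  have hhp := S.h_pos Y.i
  have hun : nd u.1 (S.lev (S.ze Y)) = u := nd_eq rfl hul
  have hsp : S.special Y u := S.special_of_grid le_rfl (S.grid_ze hY hYe) hul (by omega) (by omega)
  have hlow : S.lowW Y (S.ze Y) u.1 := by
    refine ⟨Or.inr rfl, hYe, huZ, fun j hj => huZ j (Or.inr hj)⟩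
  obtain ⟨r, hr, hch⟩ := S.conv_abs hY ({u} ∪ S.PR u ∪ S.PD u) u.1 u.1 y
    (S.ze Y - cbg S.g * S.h Y.i) (S.ze Y + S.CVc Y * S.h Y.i) (S.ze Y) (S.ib Y) t1 (by omega)
    (by omega) (by omega) (by omega) (AgOut.refl _)
    (AgOut.mono (S.lev_mono (by omega) (by omega)) le_rfl hy.1)
    ((S.freeN_nd (by omega)).1 (by rw [hun]; exact hu)) hfy
    (by rw [hun]; exact Or.inl (Or.inl rfl))
    (Or.inl (Or.inr (S.PR_of hY huZ hsp hy)))
    (fun z t ht ht' hz' hs _ => Or.inr (Or.inl (Or.inl (Or.inl (S.PAh_of hY hlow hul (Or.inl rfl)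
      (by omega) ht (by omega) (by omega) hz' hs)))))
    (fun z t ht ht' hz' hs _ => Or.inr (Or.inl (Or.inl (Or.inr (S.PAe_of hY huZ hsp hy ht
      (by omega) (by omega) hz' hs)))))
    (fun z t ht ht' hB _ => Or.inr (Or.inr (S.PB_of hY (S.CVc_eq Y) (Or.inr ⟨Or.inr rfl, hYe⟩)
      huZ hul t1 ht ht' hB)))
  rw [hun] at hch
  refine ⟨r, ?_, hch⟩
  rw [Nat.mul_assoc]
  exact len_bound hc r hr

/-- export to a home, lower wall of the core -/
theorem convD_home_export {Y : Core n} (hY : Y ∈ S.cores) (hYe : Y.e ≠ S.m) {u v : Node n}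
    (huY : S.memN Y u) (hul : u.2.val = S.lev Y.e) (hv : S.freeN v) (hvu : (butterfly n).Adj u v)
    (hvl : v.2.val = S.lev Y.e + 1) {y : Rw n} (hy : S.InR Y u.1 y) (hfy : S.free y (S.ib Y)) :
    ∃ r ≤ 8 * cbg S.g * S.h Y.i, ∃ a, Chain (butterfly n) S.F (S.PR u ∪ S.PD u) (2 * S.g) r
      (nd y (S.lev (S.ib Y))) a ∧ Near (butterfly n) S.F (2 * S.g) a v := by
  have hz := S.zone_arith hY
  have hlt := S.core_lt Y hY
  obtain ⟨t1, t2, t3⟩ := S.turn hY hYe (Or.inl rfl : Y.e = Y.e ∨ Y.e = S.ze Y)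
  have hc := S.CVc_le Y
  obtain ⟨f1, -⟩ := S.it_far hY
  have hhp := S.h_pos Y.i
  have huZ := S.memN_inZ hY huY
  have hsp : S.special Y u := S.special_of_grid le_rfl (S.core_e_grid hY hYe) hul (by omega)
    (by omega)
  have hlow : S.lowW Y Y.e u.1 :=
    ⟨Or.inl rfl, hYe, huZ, fun j hj => huY.2.2 j (Or.inr hj)⟩
  obtain ⟨hf, hnear⟩ := S.near_in hv (by omega) (S.core_e_grid hY hYe) hvl (x' := v.1)
    (AgOut.refl _)
  have hlo := S.lev_lo Y.e (by omega)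
  have hg5 := S.five_le_g
  have hvu' : AgOut (S.lev Y.e) (S.lev (Y.e + 1)) v.1 u.1 := by
    intro j hj
    rcases hvu with h | h
    · exact h.2 j (by omega)
    · have := h.1
      omega
  obtain ⟨r, hr, hch⟩ := S.conv_abs hY (S.PR u ∪ S.PD u) u.1 v.1 y
    (Y.e - cbg S.g * S.h Y.i) (Y.e + S.CVc Y * S.h Y.i) (Y.e + 1) (S.ib Y) t1 (by omega)
    (by omega) (by omega) (by omega)
    (AgOut.mono (S.lev_mono (by omega) (by omega)) le_rfl hvu')
    (AgOut.mono (S.lev_mono (by omega) (by omega)) le_rfl hy.1)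
    hf hfy
    (Or.inr (Or.inl (Or.inl (Or.inl (S.PAh_of hY hlow hul (Or.inr rfl)
      le_rfl (by omega) (by omega) (by omega) hvu' (fun d hd hd' => by omega))))))
    (Or.inl (S.PR_of hY huZ hsp hy))
    (fun z t ht ht' hz' hs _ => Or.inr (Or.inl (Or.inl (Or.inl (S.PAh_of hY hlow hul (Or.inr rfl)
      (by omega) (by omega) (by omega) (by omega)
      ((AgOut.mono (S.lev_mono (by omega) (by omega)) le_rfl hz').trans
        (AgOut.mono le_rfl (S.lev_mono (by omega) (by omega)) hvu')) hs)))))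
    (fun z t ht ht' hz' hs _ => Or.inr (Or.inl (Or.inl (Or.inr (S.PAe_of hY huZ hsp hy ht
      (by omega) (by omega) hz' hs)))))
    (fun z t ht ht' hB _ => Or.inr (Or.inr (S.PB_of hY (S.CVc_eq Y) (Or.inr ⟨Or.inl rfl, hYe⟩)
      huZ hul t1 ht ht' hB)))
  refine ⟨r, ?_, _, hch.symm, hnear.symm⟩
  rw [Nat.mul_assoc]
  exact len_bound hc r hr

/-- between T-structures of different scales, lower wall -/
theorem convD_small {X Y : Core n} (hX : X ∈ S.cores) (hY : Y ∈ S.cores) (hXY : X.i < Y.i)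
    {u : Node n} (huX : S.inZ X u.1) {β : ℕ} (hβ : S.lowW Y β u.1) (hul : u.2.val = S.lev β)
    (hβX : S.it X ≤ β) (hβX' : β ≤ S.ib X) {x y : Rw n}
    (hx : S.InR X u.1 x) (hfx : S.free x (S.ib X)) (hy : S.InR Y u.1 y) (hfy : S.free y (S.ib Y)) :
    ∃ r ≤ 8 * cbg S.g * S.h Y.i, Chain (butterfly n) S.F (S.PR u ∪ S.PD u) (2 * S.g) r
      (nd x (S.lev (S.ib X))) (nd y (S.lev (S.ib Y))) := by
  obtain ⟨hβ1, hYe, huY, hβ2⟩ := id hβ
  have hz := S.zone_arith hY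
  have hzX := S.zone_arith hX
  have hlt := S.core_lt Y hY
  have hltX := S.core_lt X hX
  obtain ⟨t1, t2, t3⟩ := S.turn hY hYe hβ1
  have hc := S.CVc_le Y
  obtain ⟨f1, -⟩ := S.it_far hY
  obtain ⟨f2, -⟩ := S.it_far hX
  have hhp := S.h_pos Y.i
  have hzeY := S.ze_eq hY hYe
  have hsc : 16 * (cbg S.g * S.h X.i) ≤ S.h Y.i := by
    have := S.h_lt hXY
    rwa [Nat.mul_assoc] at this
  have hcY : S.h Y.i ≤ cbg S.g * S.h Y.i := Nat.le_mul_of_pos_left _ (by unfold cbg; omega)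
  have hgβ : S.grid Y.i β := by
    rcases hβ1 with h | h
    · rw [h]; exact S.core_e_grid hY hYe
    · rw [h]; exact S.grid_ze hY hYe
  have hsp : S.special Y u := S.special_of_grid le_rfl hgβ hul (by omega) (by omega)
  have hspX : S.special X u := S.special_of_grid hXY.le hgβ hul hβX hβX'
  obtain ⟨r, hr, hch⟩ := S.conv_abs hY (S.PR u ∪ S.PD u) u.1 x y
    (β - cbg S.g * S.h Y.i) (β + S.CVc Y * S.h Y.i) (S.ib X) (S.ib Y) t1 (by omega)
    (by omega) (by omega) (by omega)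
    (AgOut.mono (S.lev_mono (by omega) (by omega)) le_rfl hx.1)
    (AgOut.mono (S.lev_mono (by omega) (by omega)) le_rfl hy.1)
    hfx hfy
    (Or.inl (S.PR_of hX huX hspX hx))
    (Or.inl (S.PR_of hY huY hsp hy))
    (fun z t ht ht' hz' hs _ => Or.inr (Or.inl (Or.inr (S.PAs_of hX hY hXY huX hspX hβ hul hβX
      hβX' hx ht (by omega) (by omega) hz' hs))))
    (fun z t ht ht' hz' hs _ => Or.inr (Or.inl (Or.inl (Or.inr (S.PAe_of hY huY hsp hy ht
      (by omega) (by omega) hz' hs)))))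
    (fun z t ht ht' hB _ => Or.inr (Or.inr (S.PB_of hY (S.CVc_eq Y) (Or.inr ⟨hβ1, hYe⟩)
      huY hul t1 ht ht' hB)))
  refine ⟨r, ?_, hch⟩
  rw [Nat.mul_assoc]
  exact len_bound hc r hr

/-- between T-structures of the same scale, if the T-window of `Y` lies below -/
theorem convD_equal {X Y : Core n} (hX : X ∈ S.cores) (hY : Y ∈ S.cores) (hXY : X.i = Y.i)
    (hty : S.ty Y = true) {u : Node n} (huX : S.memN X u) (huY : S.inZ Y u.1) {β : ℕ}
    (hβ : β = S.zs Y ∧ Y.s ≠ 0 ∨ β = S.ze Y ∧ Y.e ≠ S.m) (hul : u.2.val = S.lev β) {x y : Rw n}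
    (hx : S.InR X u.1 x) (hfx : S.free x (S.ib X)) (hy : S.InR Y u.1 y) (hfy : S.free y (S.ib Y)) :
    ∃ r ≤ 8 * cbg S.g * S.h Y.i, Chain (butterfly n) S.F (S.PR u ∪ S.PD u) (2 * S.g) r
      (nd x (S.lev (S.ib X))) (nd y (S.lev (S.ib Y))) := by
  have hz := S.zone_arith hY
  have hzX := S.zone_arith hX
  have hlt := S.core_lt Y hY
  have hltX := S.core_lt X hX
  have hleX := S.core_le X hX
  have f1 := (S.it_far hY).2
  have f2 := (S.it_far hX).2
  rw [hXY] at f2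
  have hYe := S.ne_m_of_true hY hty
  have hhp := S.h_pos Y.i
  have hty' := S.ty_true_h hY hty
  have hzeY := S.ze_eq hY hYe
  have hcb := S.cbg_mul Y.i
  rw [Nat.add_mul] at hty'
  rw [Nat.add_mul, Nat.add_mul] at f1 f2
  have hnb := S.nb_le hY
  have hβm : β ≤ S.ze Y := by
    rcases hβ with h | h <;> omega
  have hβz : S.zs Y ≤ β := by
    rcases hβ with h | h <;> omega
  have huXs : X.s ≤ β ∧ β ≤ X.e := by
    obtain ⟨m1, m2, -⟩ := huX
    rw [hul] at m1 m2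
    exact ⟨(S.lev_le_lev_iff (by omega) (by omega)).1 m1,
      (S.lev_le_lev_iff (by omega) (by omega)).1 m2⟩
  have huX' := S.memN_inZ hX huX
  have hgβ : S.grid Y.i β := by
    rcases hβ with ⟨h, h'⟩ | ⟨h, h'⟩
    · rw [h]; exact S.grid_zs hY h'
    · rw [h]; exact S.grid_ze hY h'
  have hsp : S.special Y u := S.special_of_grid le_rfl hgβ hul (by omega) (by omega)
  have hspX : S.special X u := S.special_of_grid hXY.le hgβ hul (by omega) (by omega)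
  have hβ' : (β = Y.s ∨ β = S.zs Y) ∧ Y.s ≠ 0 ∨ (β = Y.e ∨ β = S.ze Y) ∧ Y.e ≠ S.m := by
    rcases hβ with ⟨h, h'⟩ | ⟨h, h'⟩
    · exact Or.inl ⟨Or.inr h, h'⟩
    · exact Or.inr ⟨Or.inr h, h'⟩
  have t1 : β + cbg S.g * S.h Y.i ≤ S.m := by omega
  obtain ⟨r, hr, hch⟩ := S.conv_abs hY (S.PR u ∪ S.PD u) u.1 x y
    (β - cbg S.g * S.h Y.i) (β + cbg S.g * S.h Y.i) (S.ib X) (S.ib Y) t1 (by omega)
    (by omega) (by omega) (by omega)
    (AgOut.mono (S.lev_mono (by omega) (by omega)) le_rfl hx.1)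
    (AgOut.mono (S.lev_mono (by omega) (by omega)) le_rfl hy.1)
    hfx hfy
    (Or.inl (S.PR_of hX huX' hspX hx))
    (Or.inl (S.PR_of hY huY hsp hy))
    (fun z t ht ht' hz' hs _ => Or.inr (Or.inl (Or.inl (Or.inr (S.PAe_of hX huX' hspX hx ht
      (by rw [hXY]; omega) (by omega) hz' hs)))))
    (fun z t ht ht' hz' hs _ => Or.inr (Or.inl (Or.inl (Or.inr (S.PAe_of hY huY hsp hy ht
      (by omega) (by omega) hz' hs)))))
    (fun z t ht ht' hB _ => Or.inr (Or.inr (S.PB_of hY (Or.inr rfl) hβ' huY hul t1 ht ht' hB)))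
  refine ⟨r, ?_, hch⟩
  rw [Nat.mul_assoc]
  exact len_bound le_rfl r hr

end Sys

end Pool.Agent.Bfly
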